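import Mathlib
import Pool.Agent.Helper99.SZ.Stmts4

set_option autoImplicit false

namespace Pool.Helper99.SZ

open NumberField

lemma qfx_fact (a b : ℤ) (h : ∀ n : ℤ, n ^ 2 ≠ a ^ 2 - 4 * b) :
    ∀ r : ℚ, r ^ 2 ≠ (-(b : ℚ)) + (-(a : ℚ)) * r := by
  intro r hr
  have h1 : (2 * r + a) ^ 2 = ((a ^ 2 - 4 * b : ℤ) : ℚ) := by
    push_cast
    linear_combination 4 * hr
  have h2 : IsSquare ((a ^ 2 - 4 * b : ℤ) : ℚ) := ⟨2 * r + a, by rw [← h1]; ring⟩
  obtain ⟨n, hn⟩ := (Rat.isSquare_intCast_iff).1 h2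
  exact h n (by rw [hn]; ring)

lemma qfx_nf (a b : ℚ) [Fact (∀ r : ℚ, r ^ 2 ≠ a + b * r)] : NumberField (QuadraticAlgebra ℚ a b) := by
  have hfin : Module.Finite ℚ (QuadraticAlgebra ℚ a b) := inferInstance
  refine @NumberField.mk _ _ inferInstance ?_
  convert hfin

lemma qfx_deg (a b : ℚ) [Fact (∀ r : ℚ, r ^ 2 ≠ a + b * r)] :
    @Module.finrank ℚ (QuadraticAlgebra ℚ a b) _ _ (DivisionRing.toRatAlgebra).toModule = 2 := by
  have h : Module.finrank ℚ (QuadraticAlgebra ℚ a b) = 2 := QuadraticAlgebra.finrank_eq_two a b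
  convert h

theorem st_QFX : ST_QFX := by
  intro a b hb h
  have hF : Fact (∀ r : ℚ, r ^ 2 ≠ (-(b : ℚ)) + (-(a : ℚ)) * r) := ⟨qfx_fact a b h⟩
  have hN := qfx_nf (-(b : ℚ)) (-(a : ℚ))
  have hint : IsIntegral ℤ (QuadraticAlgebra.omega : QuadraticAlgebra ℚ (-(b : ℚ)) (-(a : ℚ))) := by
    refine ⟨Polynomial.X ^ 2 + Polynomial.C a * Polynomial.X + Polynomial.C b, ?_, ?_⟩
    · monicity!
    · simp only [Polynomial.eval₂_add, Polynomial.eval₂_mul, Polynomial.eval₂_pow, Polynomial.eval₂_X,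
        Polynomial.eval₂_C]
      ext <;> simp [pow_two]
  refine ⟨QuadraticAlgebra ℚ (-(b : ℚ)) (-(a : ℚ)), inferInstance, hN,
    starRingEnd (QuadraticAlgebra ℚ (-(b : ℚ)) (-(a : ℚ))), ⟨QuadraticAlgebra.omega, hint⟩, ?_⟩
  constructor
  · exact qfx_deg _ _
  · intro x
    exact star_star x
  · intro x hx
    have h1 : (star x).im = x.im := congrArg QuadraticAlgebra.im hx
    rw [QuadraticAlgebra.im_star] at h1
    have h2 : x.im = 0 := by linarith
    refine ⟨x.re, ?_⟩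
    have h3 : (algebraMap ℚ (QuadraticAlgebra ℚ (-(b : ℚ)) (-(a : ℚ)))) x.re = ((x.re : ℚ) : QuadraticAlgebra ℚ (-(b : ℚ)) (-(a : ℚ))) := by
      simp
    rw [h3]
    ext
    · simp
    · rw [h2]; simp
  · ext <;> simp [starRingEnd_apply]
  · ext <;> simp [starRingEnd_apply]
  · intro hx
    have h1 := congrArg QuadraticAlgebra.im hx
    rw [starRingEnd_apply] at h1
    simp only [QuadraticAlgebra.im_star, QuadraticAlgebra.omega_im] at h1
    norm_num at h1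
  · exact hb

end Pool.Helper99.SZ
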